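import Pool.Agent.Lib_helper40.MC.T10h.Q
import Pool.Agent.Lib_helper40.MC.T10h.T

/-!
# c10h: all checks
-/

set_option autoImplicit false
set_option maxRecDepth 100000

namespace Pool.Agent.MC10h

open Pool.Agent.KC72 Pool.Agent.MC

theorem c10h_0 : Num c10h c10h_t := by decide +kernel

theorem c10h_om : xm c10h.kb c10h.ko (c10h.m * c10h.N) c10h.Om = true := by decide +kernel

theorem c10h_b : cB c10h = true := by decide +kernel

theorem c10h_r0 : blk (cR c10h) c10h.rels 60 0 = true := by decide +kernel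

theorem c10h_r1 : blk (cR c10h) c10h.rels 60 1 = true := by decide +kernel

theorem c10h_r2 : blk (cR c10h) c10h.rels 60 2 = true := by decide +kernel

theorem c10h_r' : ∀ k < 3, blk (cR c10h) c10h.rels 60 k = true
  | 0, _ => c10h_r0
  | 1, _ => c10h_r1
  | 2, _ => c10h_r2
  | k + 3, h => absurd h (by omega)

theorem c10h_g : allI (fun c g => cG c10h.DG c10h_t.B c10h_t.MA c10h_t.P2 c10h_t.MB c g) c10h.G 0 = true := by decide +kernel

theorem c10h_g' : c10h.toCert.chk3' = true := by decide +kernel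

theorem c10h_k1 : (c10h.cls.take c10h.m).map (prF c10h_t.p c10h.n c10h.r) = c10h_t.PR := by decide +kernel

theorem c10h_k2 : (c10h.cls.take c10h.m).map (pkw (Int.ofNat c10h_t.Z) (Int.ofNat (Nat.pow c10h_t.Z c10h.n)) c10h.r) = c10h_t.PM := by decide +kernel

theorem c10h_k3 : c10h_t.P2.map (fun x => pmb (Int.ofNat c10h_t.B) x.1 x.2 (c10h.cls.take c10h.m)) = c10h_t.MB := by decide +kernel

theorem c10h_e : c10h.cls.all (fun e => bdE c10h_t.MA c10h.n e.1.2 && bdE c10h_t.MA c10h.n e.2.2) = true := by decide +kernel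

theorem c10h_xq : c10h_t.XQ.all (fun X => X.all (xm c10h_t.a c10h_t.d c10h_t.S)) = true := by decide +kernel

theorem c10h_xt : c10h_t.XT.all (fun X => X.all (xm c10h_t.a' c10h_t.d' c10h_t.K)) = true := by decide +kernel

/-- all checks -/
theorem c10h_ok : ROk c10h :=
  rOk_of (A := c10h_t) (l4 := 60) (n4 := 3) (lQ := 40) (nQ := 5) (lT := 40) (nT := 5) c10h_0 c10h_om c10h_b
    (by decide) (by decide +kernel) c10h_r' c10h_g c10h_g' ⟨c10h_k1, c10h_k2, c10h_k3⟩ c10h_e c10h_xq c10h_xt (by decide) (by decide +kernel) c10h_q'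
    (by decide) (by decide +kernel) c10h_t'

end Pool.Agent.MC10h
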